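import Mathlib
import Pool.Agent.H592R10.TriDefs
import Pool.Agent.H592R10.TriAvg

/-!
Exact Triangle is hard on average for circuits of small depth with at most `n ^ (3 - ε)` gates:
complete graphs with random integer weights cannot be distinguished from such graphs with a
planted triangle of weight zero.
-/

open SmallDepth DomAC0 H592R3.Hp

/-- On the two distributions together a circuit that cannot distinguish them succeeds with
probability at most about one half. -/
lemma Pool.Agent.Results.MP_62fbe0_lc.AverageCaseSmallDepth.success {n : ℕ} (hn : 3 ≤ n)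
    (A : (Fin n → Fin n → ℤ) → Prop) (δ : ℝ)
    (h : |uniformTriPr n (n ^ 4) A - plantedTriPr n (n ^ 4) A| ≤ δ) :
    uniformTriPr n (n ^ 4) (fun w => A w ↔ HasZeroTriangle w) +
      plantedTriPr n (n ^ 4) (fun w => A w ↔ HasZeroTriangle w) ≤ 1 + δ + 1 / n := by
  obtain ⟨r, hr⟩ : ∃ r, r = n ^ 4 := ⟨_, rfl⟩
  have hv := (tri_valid_prob n hn).1
  rw [← hr] at h hv ⊢
  have h1 : plantedTriPr n r (fun w => A w ↔ HasZeroTriangle w) ≤ plantedTriPr n r A := by
    rw [plantedTriPr_eq, plantedTriPr_eq]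
    apply div_le_div_of_nonneg_right _ (by positivity)
    have : cn (fun y : (Fin 3 ↪ Fin n) × ZeroTriple r × (Edge n → Fin (2 * r + 1)) =>
        A (weightMatrix (plantTriangle y.1 y.2.1 y.2.2)) ↔
        HasZeroTriangle (weightMatrix (plantTriangle y.1 y.2.1 y.2.2))) ≤
        cn (fun y : (Fin 3 ↪ Fin n) × ZeroTriple r × (Edge n → Fin (2 * r + 1)) =>
        A (weightMatrix (plantTriangle y.1 y.2.1 y.2.2))) :=
      cn_mono fun y hy => hy.2 (plantTri_zero _ _ _)
    exact_mod_cast this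
  have h2 : uniformTriPr n r (fun w => A w ↔ HasZeroTriangle w) ≤
      (1 - uniformTriPr n r A) + (1 - uniformTriPr n r (fun w => ¬ HasZeroTriangle w)) := by
    rw [uniformTriPr_eq, uniformTriPr_eq, uniformTriPr_eq]
    obtain ⟨N, hN⟩ : ∃ N : ℝ, N = (Fintype.card (Edge n → Fin (2 * r + 1)) : ℝ) := ⟨_, rfl⟩
    have hN0 : 0 < N := by
      rw [hN]
      have : 0 < Fintype.card (Edge n → Fin (2 * r + 1)) := Fintype.card_pos
      exact_mod_cast this
    have k1 := cn_not (fun x : Edge n → Fin (2 * r + 1) => A (weightMatrix x))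
    have k2 := cn_not (fun x : Edge n → Fin (2 * r + 1) => ¬ HasZeroTriangle (weightMatrix x))
    have k3 := (cn_mono (P := fun x : Edge n → Fin (2 * r + 1) =>
      (A (weightMatrix x) ↔ HasZeroTriangle (weightMatrix x)))
      (Q := fun x => ¬ A (weightMatrix x) ∨ ¬ ¬ HasZeroTriangle (weightMatrix x)) (by
        intro x hx
        by_cases h3 : A (weightMatrix x)
        · right
          exact not_not.2 (hx.1 h3)
        · left
          exact h3)).trans (cn_or _ _)
    have k1' : (cn (fun x : Edge n → Fin (2 * r + 1) => A (weightMatrix x)) : ℝ) +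
      cn (fun x : Edge n → Fin (2 * r + 1) => ¬ A (weightMatrix x)) = N := by
      rw [hN]; exact_mod_cast k1
    have k2' : (cn (fun x : Edge n → Fin (2 * r + 1) =>
        ¬ HasZeroTriangle (weightMatrix x)) : ℝ) +
      cn (fun x : Edge n → Fin (2 * r + 1) => ¬ ¬ HasZeroTriangle (weightMatrix x)) = N := by
      rw [hN]; exact_mod_cast k2
    have k3' : (cn (fun x : Edge n → Fin (2 * r + 1) =>
        (A (weightMatrix x) ↔ HasZeroTriangle (weightMatrix x))) : ℝ) ≤
      cn (fun x : Edge n → Fin (2 * r + 1) => ¬ A (weightMatrix x)) +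
      cn (fun x : Edge n → Fin (2 * r + 1) => ¬ ¬ HasZeroTriangle (weightMatrix x)) := by
      exact_mod_cast k3
    rw [← hN, div_le_iff₀ hN0]
    have e : (1 - (cn (fun x : Edge n → Fin (2 * r + 1) => A (weightMatrix x)) : ℝ) / N +
        (1 - (cn (fun x : Edge n → Fin (2 * r + 1) =>
          ¬ HasZeroTriangle (weightMatrix x)) : ℝ) / N)) * N =
        (N - cn (fun x : Edge n → Fin (2 * r + 1) => A (weightMatrix x))) +
        (N - cn (fun x : Edge n → Fin (2 * r + 1) => ¬ HasZeroTriangle (weightMatrix x))) := by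
      field_simp
    rw [e]
    linarith
  have h3 := (abs_le.1 h).1
  linarith

theorem Pool.Agent.Results.MP_62fbe0_lc.AverageCaseSmallDepth.result :
    (∀ ε : ℝ, 0 < ε → ε ≤ 1 → ∃ C : ℝ, 0 < C ∧ ∀ n d r : ℕ, 3 ≤ n → 1 ≤ d →
      C * (d * Real.log (Real.log n + 2)) ≤ Real.log n → 2 * r + 1 ≤ n ^ 5 →
      ∀ (J : Type) [Fintype J] (enc : (Fin n → Fin n → ℤ) → J → Bool),
        Fintype.card J ≤ n ^ 4 →
        (∀ j, ∃ i k, ∀ w w' : Fin n → Fin n → ℤ, w i k = w' i k → w k i = w' k i →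
          enc w j = enc w' j) →
      ∀ K : Circuit J, K.depth ≤ d → (K.size : ℝ) ≤ (n : ℝ) ^ (3 - ε) →
        |uniformTriPr n r (fun w => K.eval (enc w) = true) -
          plantedTriPr n r (fun w => K.eval (enc w) = true)| ≤ (n : ℝ) ^ (-(ε / 2)) ∧
        (r = n ^ 4 →
          uniformTriPr n r (fun w => K.eval (enc w) = true ↔ HasZeroTriangle w) +
          plantedTriPr n r (fun w => K.eval (enc w) = true ↔ HasZeroTriangle w) ≤
            1 + (n : ℝ) ^ (-(ε / 2)) + 1 / n)) ∧
    (∀ n : ℕ, 3 ≤ n →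
      1 - 1 / (n : ℝ) ≤ uniformTriPr n (n ^ 4) (fun w => ¬ HasZeroTriangle w) ∧
      plantedTriPr n (n ^ 4) (fun w => HasZeroTriangle w) = 1) := by
  refine ⟨fun ε hε hε1 => ?_, fun n hn => tri_valid_prob n hn⟩
  obtain ⟨C, hC, h⟩ := tri_avg ε hε hε1
  refine ⟨C, hC, ?_⟩
  intro n d r hn hd hCd hr J _ enc hJ henc K hK1 hK2
  have h1 := h n d r hn hd hCd hr J enc hJ henc K hK1 hK2
  refine ⟨h1, ?_⟩
  intro hr4
  subst hr4
  exact Pool.Agent.Results.MP_62fbe0_lc.AverageCaseSmallDepth.success hn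
    (fun w => K.eval (enc w) = true) _ h1
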