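import Pool.Agent.H526R2.LS.Upper

set_option autoImplicit false

/-! # Locally symmetric networks for Exact Triangle

A network reads the cells `(e i j, w i j)` of an instance of Exact Triangle on the vertex set `V`.
Its other gates compute arbitrary functions of the multiset of their inputs, with values in an
arbitrary set `K` and unbounded fan-in. It is symmetric on a block of five vertices if every even
permutation of the block (fixing all the other vertices) extends to an automorphism of the network.

Lower bound: a random network with error probability at most `ε`, all of whose members are symmetric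
on the same `r` disjoint blocks, satisfies `E [s (2 log_5 s + 1) ^ 3] ≥ (1 - 2 ε) (r - 2) ^ 3`, where
`s` is the number of gates.

Upper bound: there is a network symmetric under all permutations of the `n` vertices with
`n ^ 3 + n ^ 2 + 1` gates. -/

namespace Pool.Agent.Results.MP_62fbe0_lc.LocalSymmetry

open Pool.Agent.H526R2.LS

open Classical in
theorem result :
    (∀ (V K : Type) [Fintype V] (enc : Bool × ℤ → K) (dec : K → Bool) (r : ℕ)
      (ι : Fin r × Fin 5 ↪ V) (Ω : Type) [Fintype Ω] (p : Ω → ℝ),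
      (∀ ω, 0 ≤ p ω) → ∑ ω, p ω = 1 →
      ∀ (Gt : Ω → Type) [∀ ω, Fintype (Gt ω)] (N : ∀ ω, Net (V × V) K Unit (Gt ω)),
      (∀ ω, (N ω).SymBlocksP (fun _ => 1) ι) →
      ∀ ε : ℝ, 2 * ε ≤ 1 →
      (∀ x : ETInst V, ∑ ω with ¬ (N ω).ETOK enc dec x, p ω ≤ ε) →
      (1 - 2 * ε) * ((r - 2 : ℕ) : ℝ) ^ 3 ≤
        ∑ ω, p ω * ((Fintype.card (Gt ω) : ℝ) *
          ((2 * Nat.log 5 (Fintype.card (Gt ω)) + 1 : ℕ) : ℝ) ^ 3)) ∧
    (∀ (V : Type) [Fintype V], ∃ (Gt : Type) (_ : Fintype Gt) (N : Net (V × V) (Bool × ℤ) Unit Gt),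
      (∀ π : Equiv.Perm V, ∃ φ, N.IsAut (pairPerm π) 1 φ) ∧
      (∀ x : ETInst V, N.ETOK id Prod.fst x) ∧
      Fintype.card Gt = Fintype.card V ^ 3 + Fintype.card V ^ 2 + 1) := by
  constructor
  · intro V K _ enc dec r ι Ω _ p hp hp1 Gt _ N hsym ε hε herr
    have h := exact_lower (B := Fin 5) (by rw [Fintype.card_fin]) enc dec ι p hp hp1 Gt N hsym ε hε
      (fun G => by convert herr G)
    have e : r + 1 - 3 = r - 2 := by omega
    rwa [e] at h
  · intro V _
    exact ⟨EG V, inferInstance, etNet V, fun π => ⟨_, etNet_sym V π⟩,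
      etNet_ok V, card_EG V⟩

end Pool.Agent.Results.MP_62fbe0_lc.LocalSymmetry
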