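import Pool.Agent.H596R2.D3R.ETFinal

/-!
The Exact Triangle hypothesis holds for bounded-error randomised depth three circuits.
-/

namespace Pool.Agent.Results.MP_62fbe0_lc.RandomizedDepthThree

open Pool.Agent.H596R2.D3 Pool.Agent.H596R2.D3R

theorem result :
    (∀ ε > (0 : ℝ), ∃ c : ℝ, 0 < c ∧ ∀ n : ℕ, 2 ≤ n →
      ∀ (L : Type) [Fintype L] (w : L → ℝ) (C : L → Circuit (ETBit n) 3),
        (∀ l, 0 ≤ w l) → ∑ l, w l = 1 →
        (∀ z, ValidET z → 1 / 2 + ε ≤ success w C z (ExactTriangle z)) →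
        ∃ l, 0 < w l ∧ c * (n : ℝ) ^ 3 / Real.log n ^ 9 ≤ (C l).size) ∧
    ∀ a b : ℕ, 0 < b → a < 3 * b → ∀ K : ℕ,
      ∃ n : ℕ, ¬ ∃ (L : Type) (_ : Fintype L) (w : L → ℝ) (C : L → Circuit (ETBit n) 3),
        (∀ l, 0 ≤ w l) ∧ ∑ l, w l = 1 ∧
        (∀ z, ValidET z → 2 / 3 ≤ success w C z (ExactTriangle z)) ∧
        ∀ l, ((C l).size : ℝ) ≤ K * (n : ℝ) ^ ((a : ℝ) / b) :=
  ⟨fun ε hε => et_main ε hε, fun a b hb hab K => et_q1 a b hb hab K⟩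

end Pool.Agent.Results.MP_62fbe0_lc.RandomizedDepthThree
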