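import Mathlib
import Pool.Agent.H592R4.TriDefs
import Pool.Agent.H592R4.TriMain

/-!
Randomized small-depth circuits for Exact Triangle, and small-depth verifiers of interactive
proofs that an instance has no zero-weight triangle, need `n ^ (3 - ε)` gates.
-/

open SmallDepth DomAC0 Filter H592R3

theorem Pool.Agent.Results.MP_62fbe0_lc.SmallDepth.result :
    (∀ ε : ℝ, 0 < ε → ∃ C : ℝ, 0 < C ∧ ∀ n d S : ℕ, 2 ≤ n → 1 ≤ d →
      C * (d * Real.log (Real.log n + 2)) ≤ Real.log n →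
      ∀ R : RandCircuit (TriBits n), R.Bounded d S →
      (∀ z, TriValid z → R.Correct z (HasTri z)) →
      (n : ℝ) ^ (3 - ε) < S) ∧
    (∀ ε : ℝ, 0 < ε → ∃ C : ℝ, 0 < C ∧ ∀ n d g S : ℕ, 2 ≤ n → 1 ≤ d →
      C * (d * Real.log (Real.log n + g + 2)) ≤ Real.log n →
      ∀ G : Game (TriBits n), G.Bounded d S g →
      (∀ z, TriValid z → ¬ HasTri z → 2 / 3 ≤ G.value z) →
      (∀ z, TriValid z → HasTri z → G.value z ≤ 1 / 3) →
      (n : ℝ) ^ (3 - ε) < S) ∧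
    (∀ a b K d : ℕ, a < 3 * b → ∀ᶠ n : ℕ in atTop,
      ¬ ∃ (S : ℕ) (R : RandCircuit (TriBits n)), (S : ℝ) ≤ K * ((n : ℝ) ^ ((a : ℝ) / b) + 1) ∧
        R.Bounded d S ∧ ∀ z, TriValid z → R.Correct z (HasTri z)) := by
  refine ⟨fun ε hε => Hp.tri_rand ε hε, fun ε hε => Hp.tri_game ε hε, ?_⟩
  intro a b K d hab
  have hb : (0 : ℝ) < b := by exact_mod_cast (by omega : 0 < b)
  have habR : (a : ℝ) / b < 3 := by rw [div_lt_iff₀ hb]; exact_mod_cast hab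
  have hab0 : (0 : ℝ) ≤ (a : ℝ) / b := by positivity
  obtain ⟨ε, hε⟩ : ∃ ε : ℝ, ε = (3 - (a : ℝ) / b) / 2 := ⟨_, rfl⟩
  have hε0 : 0 < ε := by rw [hε]; linarith
  obtain ⟨C, hC, hlow⟩ := Hp.tri_rand ε hε0
  obtain ⟨D, hD⟩ : ∃ D : ℝ, D = C * ((max d 1 : ℕ) : ℝ) := ⟨_, rfl⟩
  have hD0 : 0 < D := by rw [hD]; positivity
  have hlogn : Tendsto (fun n : ℕ => Real.log (n : ℝ)) atTop atTop :=
    Real.tendsto_log_atTop.comp tendsto_natCast_atTop_atTop
  have h1 : ∀ᶠ x : ℝ in atTop, D * Real.log (x + 2) ≤ x := by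
    have h2 : Tendsto (fun x : ℝ => x + 2) atTop atTop := tendsto_atTop_add_const_right _ _ tendsto_id
    have h3 := h2.eventually (Real.isLittleO_log_id_atTop.bound (c := 1 / (2 * D)) (by positivity))
    filter_upwards [h3, eventually_ge_atTop 2] with x hx hx2
    rw [Real.norm_of_nonneg (Real.log_nonneg (by linarith)), id_eq,
      Real.norm_of_nonneg (by linarith)] at hx
    have h4 : D * Real.log (x + 2) ≤ D * (1 / (2 * D) * (x + 2)) :=
      mul_le_mul_of_nonneg_left hx hD0.le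
    have h5 : D * (1 / (2 * D) * (x + 2)) = (x + 2) / 2 := by field_simp
    linarith
  have h6 : ∀ᶠ n : ℕ in atTop, 2 * (K : ℝ) ≤ (n : ℝ) ^ ε :=
    ((tendsto_rpow_atTop hε0).comp tendsto_natCast_atTop_atTop).eventually
      (eventually_ge_atTop _)
  filter_upwards [hlogn.eventually h1, h6, eventually_ge_atTop 2] with n k1 k2 k3
  rintro ⟨S, R, hS, hR, hcor⟩
  have hn1 : (1 : ℝ) ≤ n := by exact_mod_cast (by omega : 1 ≤ n)
  have hn0 : (0 : ℝ) < n := by linarith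
  have hmain := hlow n (max d 1) S k3 (le_max_right _ _) (by
    rw [← mul_assoc, ← hD]; exact k1) R
    (fun ω => ⟨(hR ω).1.trans (le_max_left _ _), (hR ω).2⟩) hcor
  have e1 : (3 : ℝ) - ε = (a : ℝ) / b + ε := by rw [hε]; ring
  rw [e1, Real.rpow_add hn0] at hmain
  have e2 : (1 : ℝ) ≤ (n : ℝ) ^ ((a : ℝ) / b) := Real.one_le_rpow hn1 hab0
  have hK0 : (0 : ℝ) ≤ K := by positivity
  have e3 : (S : ℝ) ≤ (n : ℝ) ^ ((a : ℝ) / b) * (n : ℝ) ^ ε := by
    calc (S : ℝ) ≤ K * ((n : ℝ) ^ ((a : ℝ) / b) + 1) := hS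
      _ ≤ K * (2 * (n : ℝ) ^ ((a : ℝ) / b)) := by
          apply mul_le_mul_of_nonneg_left _ hK0
          linarith
      _ = (n : ℝ) ^ ((a : ℝ) / b) * (2 * K) := by ring
      _ ≤ (n : ℝ) ^ ((a : ℝ) / b) * (n : ℝ) ^ ε := by gcongr
  linarith
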